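import Pool.Agent.helper23.F2.Spec

set_option autoImplicit false

namespace Pool.Agent.F2

open Pool.Agent.helper23.TH

/-- the map of the copy -/
def AL9_psi {V : Type} (t : ℕ) (H : HG) (φ : H.W ⊕ Bool → V) (Q : H.E → Fin (t + 1) → V) :
    (H.W ⊕ Bool) ⊕ (H.E × Fin (t - 1)) → V
  | .inl x => φ x
  | .inr (e, k) => Q e ⟨k.1 + 1, by have := k.2; omega⟩

theorem AL9_pt {V : Type} (t : ℕ) (H : HG) (φ : H.W ⊕ Bool → V) (Q : H.E → Fin (t + 1) → V) (e : H.E)
    (h0 : Q e 0 = φ (.inl (H.ed e).1)) (h1 : Q e (Fin.last t) = φ (.inl (H.ed e).2)) (i : ℕ) (hi : i < t + 1) :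
    AL9_psi t H φ Q (H.pt t e i) = Q e ⟨i, hi⟩ := by
  unfold HG.pt
  split_ifs with h2 h3
  · have h4 : (⟨i - 1 + 1, by omega⟩ : Fin (t + 1)) = ⟨i, hi⟩ := Fin.ext (by simp only []; omega)
    simp only [AL9_psi]
    rw [h4]
  · subst h3
    simp only [AL9_psi]
    rw [← h0]
    rfl
  · have h5 : i = t := by omega
    subst h5
    simp only [AL9_psi]
    rw [← h1]
    rfl

/-- AL9 -/
theorem AL9 : AL9_stmt := by
  intro V L _ b s G t H φ F Q ht hA hvv hve hee hFv hFe hQ hQQ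
  refine ⟨AL9_psi t H φ Q, ?_, ?_⟩
  · rintro (w | ⟨e, i⟩)
    · exact hA w
    · obtain ⟨hw, h0, h1, -, -⟩ := hQ e
      change G.A (AL9_psi t H φ Q (H.pt t e i.1)) (AL9_psi t H φ Q (H.pt t e (i.1 + 1)))
      rw [AL9_pt t H φ Q e h0 h1 i.1 (by omega), AL9_pt t H φ Q e h0 h1 (i.1 + 1) (by omega)]
      exact hw i
  · -- the labels
    have k1 : ∀ x, G.lab (H.Lt t) (AL9_psi t H φ Q) (.inl (.inl x)) = G.lv (φ x) := fun x => rfl
    have k2 : ∀ (e : H.E) (k : Fin (t - 1)), G.lab (H.Lt t) (AL9_psi t H φ Q) (.inl (.inr (e, k))) =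
        G.obj (Q e) (.inl ⟨k.1 + 1, by have := k.2; omega⟩) := fun e k => rfl
    have k3 : ∀ w, G.lab (H.Lt t) (AL9_psi t H φ Q) (.inr (.inl w)) =
        G.le (φ (.inr (H.col w))) (φ (.inl w)) := fun w => rfl
    have k4 : ∀ (e : H.E) (i : Fin t), G.lab (H.Lt t) (AL9_psi t H φ Q) (.inr (.inr (e, i))) =
        G.obj (Q e) (.inr i) := by
      intro e i
      obtain ⟨-, h0, h1, -, -⟩ := hQ e
      change G.le (AL9_psi t H φ Q (H.pt t e i.1)) (AL9_psi t H φ Q (H.pt t e (i.1 + 1))) = _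
      rw [AL9_pt t H φ Q e h0 h1 i.1 (by omega), AL9_pt t H φ Q e h0 h1 (i.1 + 1) (by omega)]
      rfl
    -- the inner objects
    have n2 : ∀ k : Fin (t - 1), Inn (.inl ⟨k.1 + 1, by have := k.2; omega⟩ : Ob t) := by
      intro k
      have hk := k.2
      refine ⟨fun h => ?_, fun h => ?_⟩
      · have := congrArg Fin.val (Sum.inl.inj h)
        simp at this
      · have := congrArg Fin.val (Sum.inl.inj h)
        simp at this
        omega
    have n4 : ∀ i : Fin t, Inn (.inr i : Ob t) := fun i => ⟨(fun h => nomatch h), (fun h => nomatch h)⟩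
    -- a fixed object is in F or an inner object of some Q e
    have cls : ∀ o : (H.Lt t).W ⊕ (H.Lt t).E,
        (G.lab (H.Lt t) (AL9_psi t H φ Q) o ⊆ F ∧ ((∃ x, o = .inl (.inl x)) ∨ ∃ w, o = .inr (.inl w))) ∨
        ∃ (e : H.E) (p : Ob t), Inn p ∧ G.lab (H.Lt t) (AL9_psi t H φ Q) o = G.obj (Q e) p ∧
          ((∃ k : Fin (t - 1), o = .inl (.inr (e, k)) ∧ p = .inl ⟨k.1 + 1, by have := k.2; omega⟩) ∨
            ∃ i : Fin t, o = .inr (.inr (e, i)) ∧ p = .inr i) := by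
      rintro ((x | ⟨e, k⟩) | (w | ⟨e, i⟩))
      · exact .inl ⟨by rw [k1]; exact hFv x, .inl ⟨x, rfl⟩⟩
      · exact .inr ⟨e, _, n2 k, k2 e k, .inl ⟨k, rfl, rfl⟩⟩
      · exact .inl ⟨by rw [k3]; exact hFe w, .inr ⟨w, rfl⟩⟩
      · exact .inr ⟨e, _, n4 i, k4 e i, .inr ⟨i, rfl, rfl⟩⟩
    intro o o' hoo
    rcases cls o with ⟨hf, hc⟩ | ⟨e, p, hp, hl, hc⟩ <;> rcases cls o' with ⟨hf', hc'⟩ | ⟨e', p', hp', hl', hc'⟩
    · rcases hc with ⟨x, rfl⟩ | ⟨w, rfl⟩ <;> rcases hc' with ⟨x', rfl⟩ | ⟨w', rfl⟩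
      · rw [k1, k1]
        exact hvv x x' fun h => hoo (by rw [h])
      · rw [k1, k3]
        exact hve x w'
      · rw [k1, k3]
        exact (hve x' w).symm
      · rw [k3, k3]
        exact hee w w' fun h => hoo (by rw [h])
    · rw [hl']
      exact ((hQ e').2.2.2.2 p' hp').symm.mono_left hf
    · rw [hl]
      exact ((hQ e).2.2.2.2 p hp).mono_right hf'
    · rw [hl, hl']
      by_cases he : e = e'
      · subst he
        refine (hQ e).2.2.2.1 p p' fun h => hoo ?_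
        subst h
        rcases hc with ⟨k, rfl, h1⟩ | ⟨i, rfl, h1⟩ <;> rcases hc' with ⟨k', rfl, h2⟩ | ⟨i', rfl, h2⟩
        · have h3 := congrArg Fin.val (Sum.inl.inj (h1.symm.trans h2))
          have h4 : k = k' := Fin.ext (by simpa using h3)
          rw [h4]
        · cases h1.symm.trans h2
        · cases h1.symm.trans h2
        · have h3 := Sum.inr.inj (h1.symm.trans h2)
          rw [h3]
      · exact hQQ e e' he p p' hp hp'

end Pool.Agent.F2
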